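import Mathlib

/-!
# Neumann series on Frechet spaces

We build a Frechet space `E` (over the reals and over the complex numbers) and a continuous
linear map `U` on it such that `I - c U` is bijective for every scalar `c`, while for every
`c ≠ 0` the Neumann series at a fixed vector diverges.

`E` is the projective limit of `X ← X ← X ← ...`, where `X` is the Banach space of bounded
scalar sequences and every bonding map is the quasinilpotent weighted backward shift
`(V a) n = a (n+1) / (n+1)`; the operator `U` is the shift of the projective limit.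
-/

open Filter Topology BoundedContinuousFunction

namespace Pool.Agent.Results.MP_18d2fb_an.NeumannDiverges

section Abstract

variable {𝕜 : Type} [RCLike 𝕜] {X : Type} [NormedAddCommGroup X] [NormedSpace 𝕜 X]

/-- `1 - d V` is invertible for every scalar `d`, if `‖V ^ j‖ ≤ 1 / j!` for all `j`. -/
theorem isUnit_one_sub [CompleteSpace X] (V : X →L[𝕜] X)
    (hV : ∀ (j : ℕ) (a : X), ‖(V ^ j) a‖ ≤ ((j.factorial : ℝ))⁻¹ * ‖a‖) (d : 𝕜) :
    IsUnit (1 - d • V) := by
  have hVn : ∀ j : ℕ, ‖V ^ j‖ ≤ ((j.factorial : ℝ))⁻¹ := fun j =>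
    ContinuousLinearMap.opNorm_le_bound _ (by positivity) (hV j)
  have htend : Tendsto (fun n : ℕ => ‖d‖ ^ n / (n.factorial : ℝ)) atTop (𝓝 0) :=
    FloorSemiring.tendsto_pow_div_factorial_atTop ‖d‖
  obtain ⟨n, hn⟩ := (htend.eventually (gt_mem_nhds (zero_lt_one))).exists
  have hnorm : ‖(d • V) ^ n‖ < 1 := by
    rw [smul_pow, norm_smul, norm_pow]
    calc ‖d‖ ^ n * ‖V ^ n‖ ≤ ‖d‖ ^ n * ((n.factorial : ℝ))⁻¹ := by
          gcongr
          exact hVn n
      _ = ‖d‖ ^ n / (n.factorial : ℝ) := by rw [div_eq_mul_inv]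
      _ < 1 := hn
  have hunit : IsUnit (1 - (d • V) ^ n) := isUnit_one_sub_of_norm_lt_one hnorm
  rw [← mul_neg_geom_sum (d • V) n] at hunit
  have hcomm : Commute (1 - d • V) (∑ i ∈ Finset.range n, (d • V) ^ i) := by
    apply Commute.sum_right
    intro i _
    exact (Commute.sub_left (Commute.one_left _) (Commute.pow_right (Commute.refl _) i))
  exact (hcomm.isUnit_mul_iff.mp hunit).1

/-- The projective limit of `X ← X ← X ← ...` with bonding maps `V`. -/
def E (V : X →L[𝕜] X) : Submodule 𝕜 (ℕ → X) where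
  carrier := {x | ∀ k, V (x (k + 1)) = x k}
  add_mem' := by
    intro x y hx hy k
    simp only [Pi.add_apply, map_add]
    rw [hx k, hy k]
  zero_mem' := by
    intro k
    simp
  smul_mem' := by
    intro c x hx k
    simp only [Pi.smul_apply, map_smul]
    rw [hx k]

variable (V : X →L[𝕜] X)

theorem mem_E (x : ℕ → X) : x ∈ E V ↔ ∀ k, V (x (k + 1)) = x k := Iff.rfl

theorem isClosed_E : IsClosed (E V : Set (ℕ → X)) := by
  have : (E V : Set (ℕ → X)) = ⋂ k, {x | V (x (k + 1)) = x k} := by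
    ext x
    simp [mem_E]
  rw [this]
  apply isClosed_iInter
  intro k
  apply isClosed_eq
  · exact V.continuous.comp (continuous_apply (k + 1))
  · exact continuous_apply k

/-- The `k`-th seminorm on the projective limit. -/
noncomputable def p : SeminormFamily 𝕜 (E V) ℕ := fun k =>
  (normSeminorm 𝕜 X).comp ((LinearMap.proj k).comp (E V).subtype)

theorem p_apply (k : ℕ) (x : E V) : p V k x = ‖(x : ℕ → X) k‖ := rfl

theorem p_mono (hV1 : ∀ a, ‖V a‖ ≤ ‖a‖) : Monotone (p V) := by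
  apply monotone_nat_of_le_succ
  intro k x
  rw [p_apply, p_apply]
  calc ‖(x : ℕ → X) k‖ = ‖V ((x : ℕ → X) (k + 1))‖ := by rw [x.2 k]
    _ ≤ _ := hV1 _

theorem p_withSeminorms : WithSeminorms (p V) := by
  rw [SeminormFamily.withSeminorms_iff_nhds_eq_iInf]
  have h0 : 𝓝 (0 : E V) = comap (fun x : E V => (x : ℕ → X)) (𝓝 (0 : ℕ → X)) :=
    nhds_subtype_eq_comap
  rw [h0, nhds_pi, Filter.pi, Filter.comap_iInf]
  refine iInf_congr fun k => ?_
  rw [Filter.comap_comap]
  change comap (fun x : E V => (x : ℕ → X) k) (𝓝 (0 : X)) = _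
  rw [← comap_norm_nhds_zero, Filter.comap_comap]
  rfl

/-- The shift operator. -/
def U : E V →L[𝕜] E V where
  toFun := fun x => ⟨fun k => (x : ℕ → X) (k + 1), fun k => x.2 (k + 1)⟩
  map_add' := by
    intro x y
    rfl
  map_smul' := by
    intro c x
    rfl
  cont := by
    apply Continuous.subtype_mk
    apply continuous_pi
    intro k
    exact (continuous_apply (k + 1)).comp continuous_subtype_val

theorem U_apply (x : E V) (k : ℕ) : (U V x : ℕ → X) k = (x : ℕ → X) (k + 1) := rfl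

theorem U_pow_apply (j : ℕ) (x : E V) (k : ℕ) :
    (((U V) ^ j) x : ℕ → X) k = (x : ℕ → X) (k + j) := by
  induction j generalizing k with
  | zero => rfl
  | succ j ih =>
    rw [pow_succ']
    change (U V (((U V) ^ j) x) : ℕ → X) k = _
    rw [U_apply, ih, add_assoc, add_comm 1 j]

theorem bijective_sub [CompleteSpace X]
    (hV : ∀ (j : ℕ) (a : X), ‖(V ^ j) a‖ ≤ ((j.factorial : ℝ))⁻¹ * ‖a‖) (c : 𝕜) :
    Function.Bijective (fun x : E V => x - c • U V x) := by
  by_cases hc : c = 0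
  · subst hc
    simp only [zero_smul, sub_zero]
    exact Function.bijective_id
  obtain ⟨u, hu⟩ := isUnit_one_sub V hV c⁻¹
  set S : X →L[𝕜] X := ((u⁻¹ : (X →L[𝕜] X)ˣ) : X →L[𝕜] X) with hS
  have hSu : ∀ a : X, S (a - c⁻¹ • V a) = a := by
    intro a
    have h : S * (1 - c⁻¹ • V) = 1 := by rw [← hu, hS]; exact Units.inv_mul u
    have := congrArg (fun T : X →L[𝕜] X => T a) h
    simpa using this
  have huS : ∀ a : X, S a - c⁻¹ • V (S a) = a := by
    intro a
    have h : (1 - c⁻¹ • V) * S = 1 := by rw [← hu, hS]; exact Units.mul_inv u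
    have := congrArg (fun T : X →L[𝕜] X => T a) h
    simpa using this
  have hVS : ∀ a : X, V (S a) = S (V a) := by
    intro a
    have h1 := hSu (V (S a))
    have h2 : V (S a) - c⁻¹ • V (V (S a)) = V a := by
      conv_rhs => rw [← huS a]
      rw [map_sub, map_smul]
    rw [h2] at h1
    exact h1.symm
  constructor
  · intro x y hxy
    have hz : ∀ z : E V, z - c • U V z = 0 → z = 0 := by
      intro z hz
      have h1 : ∀ k, (z : ℕ → X) k = c • (z : ℕ → X) (k + 1) := by
        intro k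
        have := congrArg (fun w : E V => (w : ℕ → X) k) hz
        simp only [Submodule.coe_sub, Submodule.coe_smul, Pi.sub_apply, Pi.smul_apply,
          U_apply, Submodule.coe_zero, Pi.zero_apply] at this
        exact sub_eq_zero.mp this
      have h2 : ∀ k, (z : ℕ → X) (k + 1) = 0 := by
        intro k
        have h3 := z.2 k
        rw [h1 k] at h3
        have h4 : (z : ℕ → X) (k + 1) - c⁻¹ • V ((z : ℕ → X) (k + 1)) = 0 := by
          rw [h3, smul_smul, inv_mul_cancel₀ hc, one_smul, sub_self]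
        have h5 := hSu ((z : ℕ → X) (k + 1))
        rw [h4, map_zero] at h5
        exact h5.symm
      apply Subtype.ext
      funext k
      rw [h1 k, h2 k, smul_zero]
      rfl
    have := hz (x - y) (by
      rw [map_sub, smul_sub]
      have h := hxy
      simp only at h
      rw [sub_sub_sub_comm, h, sub_self])
    exact sub_eq_zero.mp this
  · intro y
    refine ⟨⟨fun k => -(c⁻¹ • S (V ((y : ℕ → X) k))), ?_⟩, ?_⟩
    · intro k
      simp only [map_neg, map_smul]
      rw [hVS, y.2 k]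
    · apply Subtype.ext
      funext k
      simp only [Submodule.coe_sub, Submodule.coe_smul, Pi.sub_apply, Pi.smul_apply, U_apply]
      rw [y.2 k]
      have h := hSu ((y : ℕ → X) k)
      rw [map_sub, map_smul] at h
      rw [smul_neg, smul_smul, mul_inv_cancel₀ hc, one_smul]
      rw [neg_sub_neg]
      exact h

theorem diverges (e : ℕ → X) (he : ∀ k, V (e (k + 1)) = e k)
    (hnorm : ∀ k, ‖e k‖ = (k.factorial : ℝ)) (c : 𝕜) (hc : c ≠ 0) :
    ¬ ∃ y : E V, Tendsto (fun n : ℕ => ∑ k ∈ Finset.range n,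
      c ^ k • ((U V) ^ k) (⟨e, he⟩ : E V)) atTop (𝓝 y) := by
  rintro ⟨y, hy⟩
  have hy1 := hy.comp (tendsto_add_atTop_nat 1)
  have hsub := hy1.sub hy
  rw [sub_self] at hsub
  have hterm : Tendsto (fun n : ℕ => c ^ n • ((U V) ^ n) (⟨e, he⟩ : E V)) atTop (𝓝 0) := by
    refine hsub.congr ?_
    intro n
    simp only [Function.comp_apply]
    rw [Finset.sum_range_succ]
    abel
  have h1 : Tendsto (fun n : ℕ => ‖((c ^ n • ((U V) ^ n) (⟨e, he⟩ : E V) : E V) : ℕ → X) 0‖)
      atTop (𝓝 ‖((0 : E V) : ℕ → X) 0‖) := by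
    have hcont : Continuous (fun z : E V => ‖(z : ℕ → X) 0‖) :=
      ((continuous_apply 0).comp continuous_subtype_val).norm
    exact (hcont.tendsto 0).comp hterm
  have hzero : ‖((0 : E V) : ℕ → X) 0‖ = 0 := by simp
  rw [hzero] at h1
  have hval : ∀ n : ℕ, ‖((c ^ n • ((U V) ^ n) (⟨e, he⟩ : E V) : E V) : ℕ → X) 0‖
      = ‖c‖ ^ n * (n.factorial : ℝ) := by
    intro n
    rw [Submodule.coe_smul, Pi.smul_apply, U_pow_apply, norm_smul, norm_pow]
    congr 1
    change ‖e (0 + n)‖ = _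
    rw [zero_add, hnorm]
  simp_rw [hval] at h1
  have hinv : Tendsto (fun n : ℕ => ‖c⁻¹‖ ^ n / (n.factorial : ℝ)) atTop (𝓝 0) :=
    FloorSemiring.tendsto_pow_div_factorial_atTop ‖c⁻¹‖
  have hmul := h1.mul hinv
  rw [mul_zero] at hmul
  have hone : Tendsto (fun _ : ℕ => (1 : ℝ)) atTop (𝓝 0) := by
    refine hmul.congr ?_
    intro n
    have hn : (n.factorial : ℝ) ≠ 0 := by exact_mod_cast n.factorial_ne_zero
    have hc' : ‖c‖ ≠ 0 := norm_ne_zero_iff.mpr hc
    rw [norm_inv, inv_pow]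
    field_simp
  have := tendsto_nhds_unique hone tendsto_const_nhds
  norm_num at this

end Abstract

section Concrete

variable (𝕜 : Type) [RCLike 𝕜]

/-- The weighted backward shift `(V a) n = a (n+1) / (n+1)` on bounded sequences. -/
noncomputable def V₀ : (ℕ →ᵇ 𝕜) →L[𝕜] (ℕ →ᵇ 𝕜) :=
  LinearMap.mkContinuous
    { toFun := fun a => BoundedContinuousFunction.ofNormedAddCommGroupDiscrete
        (fun n => (((n : ℝ) + 1)⁻¹ : ℝ) • a (n + 1)) ‖a‖ (by
          intro n
          rw [norm_smul]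
          have h1 : ‖(((n : ℝ) + 1)⁻¹ : ℝ)‖ ≤ 1 := by
            rw [Real.norm_eq_abs, abs_of_nonneg (by positivity)]
            apply inv_le_one_of_one_le₀
            have : (0 : ℝ) ≤ n := Nat.cast_nonneg n
            linarith
          calc ‖(((n : ℝ) + 1)⁻¹ : ℝ)‖ * ‖a (n + 1)‖ ≤ 1 * ‖a‖ := by
                apply mul_le_mul h1 (a.norm_coe_le_norm _) (norm_nonneg _) zero_le_one
            _ = ‖a‖ := one_mul _)
      map_add' := by
        intro a b
        ext n
        simp [smul_add]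
      map_smul' := by
        intro c a
        ext n
        simp }
    1 (by
      intro a
      rw [one_mul, BoundedContinuousFunction.norm_le (norm_nonneg _)]
      intro n
      simp only [LinearMap.coe_mk, AddHom.coe_mk]
      rw [BoundedContinuousFunction.coe_ofNormedAddCommGroupDiscrete, norm_smul]
      have h1 : ‖(((n : ℝ) + 1)⁻¹ : ℝ)‖ ≤ 1 := by
        rw [Real.norm_eq_abs, abs_of_nonneg (by positivity)]
        apply inv_le_one_of_one_le₀
        have : (0 : ℝ) ≤ n := Nat.cast_nonneg n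
        linarith
      calc ‖(((n : ℝ) + 1)⁻¹ : ℝ)‖ * ‖a (n + 1)‖ ≤ 1 * ‖a‖ := by
            apply mul_le_mul h1 (a.norm_coe_le_norm _) (norm_nonneg _) zero_le_one
        _ = ‖a‖ := one_mul _)

theorem V₀_apply (a : ℕ →ᵇ 𝕜) (n : ℕ) : V₀ 𝕜 a n = (((n : ℝ) + 1)⁻¹ : ℝ) • a (n + 1) := by
  simp [V₀]

theorem norm_V₀_apply_le (a : ℕ →ᵇ 𝕜) : ‖V₀ 𝕜 a‖ ≤ ‖a‖ := by
  have h : ‖V₀ 𝕜‖ ≤ 1 := LinearMap.mkContinuous_norm_le _ zero_le_one _
  calc ‖V₀ 𝕜 a‖ ≤ ‖V₀ 𝕜‖ * ‖a‖ := (V₀ 𝕜).le_opNorm a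
    _ ≤ 1 * ‖a‖ := by gcongr
    _ = ‖a‖ := one_mul _

theorem norm_V₀pow_apply_le' (j : ℕ) (a : ℕ →ᵇ 𝕜) (n : ℕ) :
    ‖((V₀ 𝕜) ^ j) a n‖ ≤ ((n.factorial : ℝ) / ((n + j).factorial : ℝ)) * ‖a‖ := by
  induction j generalizing n with
  | zero =>
    have h : (n.factorial : ℝ) ≠ 0 := by exact_mod_cast n.factorial_ne_zero
    simp only [pow_zero, add_zero]
    rw [div_self h, one_mul]
    exact a.norm_coe_le_norm n
  | succ j ih =>
    rw [pow_succ']
    change ‖V₀ 𝕜 (((V₀ 𝕜) ^ j) a) n‖ ≤ _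
    rw [V₀_apply, norm_smul, Real.norm_eq_abs, abs_of_nonneg (by positivity)]
    have h1 := ih (n + 1)
    have hf : ((n + 1).factorial : ℝ) = ((n : ℝ) + 1) * (n.factorial : ℝ) := by
      rw [Nat.factorial_succ]; push_cast; ring
    have hidx : n + 1 + j = n + (j + 1) := by ring
    rw [hidx, hf] at h1
    have hn : (0 : ℝ) < (n : ℝ) + 1 := by positivity
    calc ((n : ℝ) + 1)⁻¹ * ‖((V₀ 𝕜) ^ j) a (n + 1)‖
        ≤ ((n : ℝ) + 1)⁻¹ *
            ((((n : ℝ) + 1) * (n.factorial : ℝ)) / ((n + (j + 1)).factorial : ℝ) * ‖a‖) := by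
          gcongr
      _ = ((n.factorial : ℝ) / ((n + (j + 1)).factorial : ℝ)) * ‖a‖ := by
          field_simp

theorem norm_V₀pow_apply_le (j : ℕ) (a : ℕ →ᵇ 𝕜) :
    ‖((V₀ 𝕜) ^ j) a‖ ≤ ((j.factorial : ℝ))⁻¹ * ‖a‖ := by
  rw [BoundedContinuousFunction.norm_le (by positivity)]
  intro n
  refine (norm_V₀pow_apply_le' 𝕜 j a n).trans ?_
  have hj : (0 : ℝ) < (j.factorial : ℝ) := by exact_mod_cast j.factorial_pos
  have hnj : (0 : ℝ) < ((n + j).factorial : ℝ) := by exact_mod_cast (n + j).factorial_pos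
  have h : n.factorial * j.factorial ≤ (n + j).factorial :=
    Nat.le_of_dvd (Nat.factorial_pos _) (Nat.factorial_mul_factorial_dvd_factorial_add n j)
  have h' : (n.factorial : ℝ) * (j.factorial : ℝ) ≤ ((n + j).factorial : ℝ) := by
    exact_mod_cast h
  apply mul_le_mul_of_nonneg_right _ (norm_nonneg _)
  rw [div_le_iff₀ hnj, inv_mul_eq_div, le_div_iff₀ hj]
  exact h'

/-- The unit vectors times factorials. -/
noncomputable def e₀ (k : ℕ) : ℕ →ᵇ 𝕜 :=
  BoundedContinuousFunction.ofNormedAddCommGroupDiscrete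
    (fun n => if n = k then ((k.factorial : ℝ) : 𝕜) else 0) (k.factorial : ℝ) (by
      intro n
      by_cases h : n = k
      · simp [h]
      · simp [h])

theorem e₀_apply (k n : ℕ) : e₀ 𝕜 k n = if n = k then ((k.factorial : ℝ) : 𝕜) else 0 := rfl

theorem V₀_e₀ (k : ℕ) : V₀ 𝕜 (e₀ 𝕜 (k + 1)) = e₀ 𝕜 k := by
  ext n
  rw [V₀_apply, e₀_apply, e₀_apply]
  by_cases h : n = k
  · subst h
    have hn : ((n : ℝ) + 1) ≠ 0 := by positivity
    simp only [if_true]
    rw [Nat.factorial_succ]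
    rw [RCLike.real_smul_eq_coe_mul, ← RCLike.ofReal_mul]
    congr 1
    push_cast
    field_simp
  · have h' : ¬ (n + 1 = k + 1) := by omega
    rw [if_neg h', if_neg h, smul_zero]

theorem norm_e₀ (k : ℕ) : ‖e₀ 𝕜 k‖ = (k.factorial : ℝ) := by
  apply le_antisymm
  · rw [BoundedContinuousFunction.norm_le (by positivity)]
    intro n
    rw [e₀_apply]
    by_cases h : n = k
    · simp [h]
    · simp [h]
  · have h := (e₀ 𝕜 k).norm_coe_le_norm k
    rw [e₀_apply, if_pos rfl] at h
    simpa using h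

/-- **Q1 is false, over the reals and over the complex numbers.**  There are a complete Hausdorff
locally convex space `E` whose topology is given by an increasing sequence of seminorms and a
continuous linear map `U` on `E` such that `x ↦ x - c U x` is a bijection of `E` for every
scalar `c`, and there is a vector `x` such that for every scalar `c ≠ 0` the Neumann series
`∑ c ^ k U ^ k x` does not converge in `E`. -/
theorem result :
    ∃ (E : Type) (_ : AddCommGroup E) (_ : Module 𝕜 E) (_ : UniformSpace E)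
      (_ : IsUniformAddGroup E) (_ : ContinuousSMul 𝕜 E) (_ : CompleteSpace E) (_ : T2Space E)
      (p : SeminormFamily 𝕜 E ℕ) (U : E →L[𝕜] E),
      WithSeminorms p ∧ Monotone p ∧
      (∀ c : 𝕜, Function.Bijective (fun x : E => x - c • U x)) ∧
      ∃ x : E, ∀ c : 𝕜, c ≠ 0 →
        ¬ ∃ y : E, Tendsto (fun n : ℕ => ∑ k ∈ Finset.range n, c ^ k • (U ^ k) x) atTop (𝓝 y) := by
  refine ⟨E (V₀ 𝕜), inferInstance, inferInstance, inferInstance,
    (E (V₀ 𝕜)).toAddSubgroup.isUniformAddGroup, inferInstance,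
    (isClosed_E (V₀ 𝕜)).completeSpace_coe, inferInstance, p (V₀ 𝕜), U (V₀ 𝕜),
    p_withSeminorms _, p_mono _ (norm_V₀_apply_le 𝕜), ?_, ⟨e₀ 𝕜, V₀_e₀ 𝕜⟩, ?_⟩
  · exact bijective_sub (V₀ 𝕜) (norm_V₀pow_apply_le 𝕜)
  · intro c hc
    exact diverges (V₀ 𝕜) (e₀ 𝕜) (V₀_e₀ 𝕜) (norm_e₀ 𝕜) c hc

end Concrete

end Pool.Agent.Results.MP_18d2fb_an.NeumannDiverges
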